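import Pool.Agent.N763.SC.Cls
import Pool.Agent.N666.TM.Thin
import Pool.Agent.N666.TM.Turan

set_option autoImplicit false

/-!
Schneider's conjecture: the members of a well distributed sequence with small `p`-adic regulators, for all primes up
to a small power simultaneously.
-/

namespace Pool.Agent.N193.SR

open Finset hiding dens
open Filter
open Pool.Agent.Y732 Pool.Agent.R89.SR Pool.Agent.N763.SC Pool.Agent.N666.TM Pool.Agent.Y722.HS

variable {d r : ℕ}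

open Classical in
/-- one prime -/
lemma one_prime (F : Family d r) (hr : 0 < r) (hK : F.K.det ≠ 0) {p : ℕ} [hp : Fact p.Prime] (hp5 : 5 ≤ p) (k : ℕ)
    {s : Finset ℕ} {x : ℕ → Fin d → ℤ} {H : ℕ} (hw : Well s x H) (hk : p ^ k ≤ 2 * H + 1) :
    ((s.filter fun n => Sml F p (p ^ k) (x n)).card : ℝ) ≤
      2 * cst F p * (((p : ℝ) ^ k) ^ ((1 : ℝ) / r))⁻¹ * s.card := by
  have hpk : 0 < p ^ k := pow_pos hp.out.pos k
  have h1 := SA_ind hw (p ^ k) hpk hk (SmlCls F p k)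
  have hs : (0 : ℝ) < s.card := by exact_mod_cast hw.pos
  have hd := dens_nonneg (SmlCls F p k)
  have h2 : (1 : ℝ) / (2 * H + 1) ≤ 1 := by
    rw [div_le_one (by positivity)]
    have : (0 : ℝ) ≤ H := Nat.cast_nonneg _
    linarith
  have h3 : SA s x (fun c => ind (SmlCls F p k) (red (p ^ k) c)) ≤ 2 * dens (SmlCls F p k) := by
    have := (abs_le.1 h1).2
    nlinarith
  have h4 : dens (SmlCls F p k) ≤ cst F p * (((p : ℝ) ^ k) ^ ((1 : ℝ) / r))⁻¹ := by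
    have h5 := cls_real F hr hK hp5 k
    unfold Pool.Agent.N666.TM.dens
    rw [Fintype.card_fin, div_le_iff₀ (by positivity)]
    exact_mod_cast h5
  have h6 : ((s.filter fun n => Sml F p (p ^ k) (x n)).card : ℝ) ≤
      SA s x (fun c => ind (SmlCls F p k) (red (p ^ k) c)) * s.card := by
    unfold SA
    rw [div_mul_cancel₀ _ hs.ne', card_filter]
    push_cast
    refine sum_le_sum fun n _ => ?_
    by_cases h : Sml F p (p ^ k) (x n)
    · rw [if_pos h]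
      have h7 : red (p ^ k) (x n) ∈ SmlCls F p k := ⟨x n, h, rfl⟩
      unfold ind
      rw [if_pos h7]
    · rw [if_neg h]
      exact ind_nonneg _ _
  calc _ ≤ SA s x (fun c => ind (SmlCls F p k) (red (p ^ k) c)) * s.card := h6
    _ ≤ (2 * (cst F p * (((p : ℝ) ^ k) ^ ((1 : ℝ) / r))⁻¹)) * s.card :=
        mul_le_mul_of_nonneg_right (h3.trans (by linarith)) hs.le
    _ = _ := by ring

/-- the largest power -/
lemma big_pow {p : ℕ} (hp : 2 ≤ p) {Y : ℝ} (hY : 1 ≤ Y) : ∃ k : ℕ, ((p ^ k : ℕ) : ℝ) ≤ Y ∧ Y ≤ p * ((p ^ k : ℕ) : ℝ) := by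
  have h1 : ⌊Y⌋₊ ≠ 0 := by
    have := (Nat.one_le_floor_iff Y).2 hY
    omega
  refine ⟨Nat.log p ⌊Y⌋₊, ?_, ?_⟩
  · have h2 := Nat.pow_log_le_self p h1
    exact (by exact_mod_cast h2 : ((p ^ Nat.log p ⌊Y⌋₊ : ℕ) : ℝ) ≤ (⌊Y⌋₊ : ℝ)).trans (Nat.floor_le (by linarith))
  · have h3 := Nat.lt_pow_succ_log_self (b := p) (by omega) ⌊Y⌋₊
    have h4 : ((⌊Y⌋₊ + 1 : ℕ) : ℝ) ≤ ((p ^ (Nat.log p ⌊Y⌋₊).succ : ℕ) : ℝ) := by exact_mod_cast h3
    have h5 := Nat.lt_floor_add_one Y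
    push_cast at h4 ⊢
    rw [Nat.succ_eq_add_one, pow_succ] at h4
    linarith

/-- the member at `v` is good: for all primes `p` with `5 ≤ p ≤ P` at which it is marked and ordinary, the `p`-adic
regulators do not vanish and have norm greater than `1 / T` -/
def Good (F : Family d r) (P T : ℝ) (v : Fin d → ℤ) : Prop :=
  F.Marked v → ∀ (p : ℕ) (_ : Fact p.Prime), 5 ≤ p → (p : ℝ) ≤ P → IsOrdinaryW p (F.curve v) →
    F.NonDeg v p ∧ ∃ k : ℕ, ((p ^ k : ℕ) : ℝ) ≤ T ∧ Large F p (p ^ k) v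

open Classical in
theorem thin (F : Family d r) (hr : 0 < r) (hK : F.K.det ≠ 0) {s : ℕ → Finset ℕ} {x : ℕ → Fin d → ℤ} {κ : ℝ} (hκ : 0 < κ)
    (hw : ∃ N₀ : ℕ, ∀ N : ℕ, N₀ ≤ N → ∀ H : ℕ, (H : ℝ) ≤ (N : ℝ) ^ κ → Well (s N) x H) (ε : ℝ) (hε : 0 < ε) :
    ∃ η : ℝ, 0 < η ∧ ∃ N₀ : ℕ, ∀ N : ℕ, N₀ ≤ N →
      (((s N).filter fun n => ¬ Good F ((N : ℝ) ^ η) ((N : ℝ) ^ ε) (x n)).card : ℝ) ≤ (s N).card * (N : ℝ) ^ (-η) := by
  have hr0 : (0 : ℝ) < r := by exact_mod_cast hr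
  have hr1 : (1 : ℝ) ≤ r := by exact_mod_cast hr
  obtain ⟨κ', hκ'⟩ : ∃ κ', κ' = min κ ε := ⟨_, rfl⟩
  have hκ'0 : 0 < κ' := by rw [hκ']; exact lt_min hκ hε
  obtain ⟨η, hη⟩ : ∃ η, η = κ' / (10 * r) := ⟨_, rfl⟩
  have hη0 : 0 < η := by rw [hη]; positivity
  obtain ⟨N₁, hN₁⟩ := hw
  obtain ⟨c₀, hc₀⟩ : ∃ c₀ : ℝ, c₀ = 2 ^ d * r * |(F.K.det : ℝ)| := ⟨_, rfl⟩
  have hc0 : 0 ≤ c₀ := by rw [hc₀]; positivity
  obtain ⟨N₂, hN₂⟩ := eventually_atTop.1 ((tendsto_natCast_atTop_atTop (R := ℝ)).eventually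
    ((tendsto_rpow_atTop hη0).eventually_ge_atTop (4 * c₀ + 1)))
  refine ⟨η, hη0, N₁ + N₂ + 1, fun N hN => ?_⟩
  have hNr : (1 : ℝ) ≤ N := by exact_mod_cast (by omega : 1 ≤ N)
  have hN0 : (0 : ℝ) < N := by linarith
  have hY : 1 ≤ (N : ℝ) ^ κ' := Real.one_le_rpow hNr hκ'0.le
  have hwell := hN₁ N (by omega) ⌊(N : ℝ) ^ κ⌋₊ (Nat.floor_le (by positivity))
  have hs : (0 : ℝ) < (s N).card := by exact_mod_cast hwell.pos
  -- the primes
  obtain ⟨Ps, hPs⟩ : ∃ Ps : Finset ℕ, Ps = (range (⌊(N : ℝ) ^ η⌋₊ + 1)).filter fun p => p.Prime ∧ 5 ≤ p := ⟨_, rfl⟩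
  have hch : ∀ p : ℕ, ∃ k : ℕ, 2 ≤ p → ((p ^ k : ℕ) : ℝ) ≤ (N : ℝ) ^ κ' ∧ (N : ℝ) ^ κ' ≤ p * ((p ^ k : ℕ) : ℝ) := by
    intro p
    by_cases h2 : 2 ≤ p
    · obtain ⟨k, hk⟩ := big_pow h2 hY
      exact ⟨k, fun _ => hk⟩
    · exact ⟨0, fun h => absurd h h2⟩
  choose k hk using hch
  let V : ℕ → Finset ℕ := fun p => if hp : p.Prime then
    (s N).filter fun n => @Sml d r F p ⟨hp⟩ (p ^ k p) (x n) else ∅
  have hVle : ∀ p ∈ Ps, ((V p).card : ℝ) ≤ 2 * c₀ * (N : ℝ) ^ (5 * η - (κ' - η) / r) * (s N).card := by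
    intro p hp
    rw [hPs, mem_filter, mem_range] at hp
    obtain ⟨h1, h2, h3⟩ := hp
    have hpη : (p : ℝ) ≤ (N : ℝ) ^ η := by
      have : p ≤ ⌊(N : ℝ) ^ η⌋₊ := by omega
      exact (by exact_mod_cast this : (p : ℝ) ≤ (⌊(N : ℝ) ^ η⌋₊ : ℝ)).trans (Nat.floor_le (by positivity))
    have hfact : Fact p.Prime := ⟨h2⟩
    have hp0 : (0 : ℝ) < p := by exact_mod_cast h2.pos
    obtain ⟨k1, k2⟩ := hk p h2.two_le
    have h4 : p ^ k p ≤ 2 * ⌊(N : ℝ) ^ κ⌋₊ + 1 := by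
      have h5 : ((p ^ k p : ℕ) : ℝ) ≤ (N : ℝ) ^ κ := k1.trans (Real.rpow_le_rpow_of_exponent_le hNr (by rw [hκ']; exact min_le_left _ _))
      have := Nat.le_floor h5
      omega
    have h6 := one_prime F hr hK h3 (k p) hwell h4
    have h7 : V p = (s N).filter fun n => Sml F p (p ^ k p) (x n) := by
      show (if hp : p.Prime then _ else _) = _
      rw [dif_pos h2]
    rw [h7]
    refine h6.trans (mul_le_mul_of_nonneg_right ?_ hs.le)
    have h8 : (N : ℝ) ^ (κ' - η) ≤ (p : ℝ) ^ k p := by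
      rw [Real.rpow_sub hN0, div_le_iff₀ (by positivity)]
      push_cast at k2
      calc (N : ℝ) ^ κ' ≤ p * (p : ℝ) ^ k p := k2
        _ ≤ (N : ℝ) ^ η * (p : ℝ) ^ k p := mul_le_mul_of_nonneg_right hpη (by positivity)
        _ = _ := by ring
    have h9 : (((p : ℝ) ^ k p) ^ ((1 : ℝ) / r))⁻¹ ≤ (N : ℝ) ^ (-((κ' - η) / r)) := by
      rw [Real.rpow_neg hN0.le]
      apply inv_anti₀ (by positivity)
      calc (N : ℝ) ^ ((κ' - η) / r) = ((N : ℝ) ^ (κ' - η)) ^ ((1 : ℝ) / r) := by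
            rw [← Real.rpow_mul hN0.le]
            congr 1
            ring
        _ ≤ _ := Real.rpow_le_rpow (by positivity) h8 (by positivity)
    have h10 : cst F p ≤ c₀ * (N : ℝ) ^ (4 * η) := by
      unfold cst
      rw [← hc₀]
      apply mul_le_mul_of_nonneg_left _ hc0
      calc (p : ℝ) ^ 4 ≤ ((N : ℝ) ^ η) ^ 4 := pow_le_pow_left₀ hp0.le hpη 4
        _ = _ := by
          rw [← Real.rpow_natCast, ← Real.rpow_mul hN0.le]
          congr 1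
          push_cast
          ring
    have h11 : (0 : ℝ) ≤ cst F p := by unfold cst; positivity
    calc 2 * cst F p * (((p : ℝ) ^ k p) ^ ((1 : ℝ) / r))⁻¹ ≤ 2 * (c₀ * (N : ℝ) ^ (4 * η)) * (N : ℝ) ^ (-((κ' - η) / r)) :=
          mul_le_mul (mul_le_mul_of_nonneg_left h10 (by norm_num)) h9 (by positivity) (by positivity)
      _ = 2 * c₀ * ((N : ℝ) ^ (4 * η) * (N : ℝ) ^ (-((κ' - η) / r))) := by ring
      _ = 2 * c₀ * (N : ℝ) ^ (4 * η - (κ' - η) / r) := by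
          rw [← Real.rpow_add hN0]
          congr 2
      _ ≤ _ := by
          apply mul_le_mul_of_nonneg_left _ (by positivity)
          exact Real.rpow_le_rpow_of_exponent_le hNr (by linarith)
  have hsub : ((s N).filter fun n => ¬ Good F ((N : ℝ) ^ η) ((N : ℝ) ^ ε) (x n)) ⊆ Ps.biUnion V := by
    intro n hn
    rw [mem_filter] at hn
    obtain ⟨hn1, hn2⟩ := hn
    unfold Good at hn2
    push Not at hn2
    obtain ⟨hM, p, hpf, hp5, hpη, ho, hbad⟩ := hn2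
    rw [mem_biUnion]
    refine ⟨p, ?_, ?_⟩
    · rw [hPs, mem_filter, mem_range]
      exact ⟨Nat.lt_succ_of_le (Nat.le_floor hpη), hpf.out, hp5⟩
    · have h7 : V p = (s N).filter fun n => Sml F p (p ^ k p) (x n) := by
        show (if hp : p.Prime then _ else _) = _
        rw [dif_pos hpf.out]
      rw [h7, mem_filter]
      refine ⟨hn1, ?_⟩
      by_cases hnd : F.NonDeg (x n) p
      · refine sml_of_not hr hM ho (hbad hnd (k p) ?_)
        exact (hk p hpf.out.two_le).1.trans (Real.rpow_le_rpow_of_exponent_le hNr (by rw [hκ']; exact min_le_right _ _))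
      · exact sml_of_not_nonDeg hr hM ho hnd _
  have hcard : ((Ps.card : ℕ) : ℝ) ≤ 2 * (N : ℝ) ^ η := by
    have h1 : Ps.card ≤ ⌊(N : ℝ) ^ η⌋₊ + 1 := by
      rw [hPs]
      exact (card_filter_le _ _).trans (by rw [card_range])
    have h2 : ((⌊(N : ℝ) ^ η⌋₊ : ℕ) : ℝ) ≤ (N : ℝ) ^ η := Nat.floor_le (by positivity)
    have h3 : 1 ≤ (N : ℝ) ^ η := Real.one_le_rpow hNr hη0.le
    have h4 : (Ps.card : ℝ) ≤ (⌊(N : ℝ) ^ η⌋₊ : ℝ) + 1 := by exact_mod_cast h1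
    linarith
  have hbig : 4 * c₀ ≤ (N : ℝ) ^ η := by
    have := hN₂ N (by omega)
    linarith
  calc (((s N).filter fun n => ¬ Good F ((N : ℝ) ^ η) ((N : ℝ) ^ ε) (x n)).card : ℝ) ≤
      ((∑ p ∈ Ps, (V p).card : ℕ) : ℝ) := by exact_mod_cast (card_le_card hsub).trans card_biUnion_le
    _ ≤ ∑ p ∈ Ps, 2 * c₀ * (N : ℝ) ^ (5 * η - (κ' - η) / r) * (s N).card := by
        rw [Nat.cast_sum]
        exact sum_le_sum hVle
    _ = Ps.card * (2 * c₀ * (N : ℝ) ^ (5 * η - (κ' - η) / r) * (s N).card) := by rw [sum_const, nsmul_eq_mul]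
    _ ≤ (2 * (N : ℝ) ^ η) * (2 * c₀ * (N : ℝ) ^ (5 * η - (κ' - η) / r) * (s N).card) :=
        mul_le_mul_of_nonneg_right hcard (by positivity)
    _ = (s N).card * ((4 * c₀) * ((N : ℝ) ^ η * (N : ℝ) ^ (5 * η - (κ' - η) / r))) := by ring
    _ ≤ (s N).card * ((N : ℝ) ^ η * ((N : ℝ) ^ η * (N : ℝ) ^ (5 * η - (κ' - η) / r))) := by
        apply mul_le_mul_of_nonneg_left _ hs.le
        exact mul_le_mul_of_nonneg_right hbig (by positivity)
    _ = (s N).card * (N : ℝ) ^ (7 * η - (κ' - η) / r) := by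
        rw [← Real.rpow_add hN0, ← Real.rpow_add hN0]
        congr 2
        ring
    _ ≤ _ := by
        apply mul_le_mul_of_nonneg_left _ hs.le
        apply Real.rpow_le_rpow_of_exponent_le hNr
        have h1 : κ' / r = 10 * η := by rw [hη]; field_simp
        have h2 : η / r ≤ η := div_le_self hη0.le hr1
        rw [sub_div, h1]
        linarith

end Pool.Agent.N193.SR
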